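import Mathlib

set_option autoImplicit false
set_option linter.unusedVariables false

namespace Pool.Agent.DWRD

open scoped ComplexOrder
open Matrix Polynomial

/-- sum over eigenvalues of a real diagonal matrix -/
theorem sum_eig (v : Fin 4 → ℝ) (M : Matrix (Fin 4) (Fin 4) ℂ) (hM : M.IsHermitian)
    (h : M = Matrix.diagonal (fun i => (v i : ℂ))) (f : ℝ → ℝ) :
    ∑ i, f (hM.eigenvalues i) = ∑ i, f (v i) := by
  have h1 : M.charpoly.roots = Multiset.map (fun i => (hM.eigenvalues i : ℂ)) Finset.univ.val := by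
    exact hM.roots_charpoly_eq_eigenvalues
  have h2 : M.charpoly.roots = Multiset.map (fun i => (v i : ℂ)) Finset.univ.val := by
    rw [h, Matrix.charpoly_diagonal, Polynomial.roots_prod _ _ (by
      simp [Finset.prod_ne_zero_iff, Polynomial.X_sub_C_ne_zero])]
    simp
  have h3 : Multiset.map hM.eigenvalues Finset.univ.val = Multiset.map v Finset.univ.val := by
    have h4 := h1.symm.trans h2
    have h5 := congrArg (Multiset.map Complex.re) h4
    simpa [Multiset.map_map, Function.comp_def] using h5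
  have h6 := congrArg (fun s => (Multiset.map f s).sum) h3
  simpa [Multiset.map_map, Function.comp_def, Finset.sum] using h6

def a0 : Fin 4 → ℕ := ![0, 1, 1, 2]
def a1 : Fin 4 → ℕ := ![1, 0, 1, 2]
def b1 : Fin 4 → ℕ := ![0, 1, 2, 1]

def dg (v : Fin 4 → ℕ) : Matrix (Fin 4) (Fin 4) ℂ := Matrix.diagonal (fun i => ((v i : ℕ) : ℂ))

theorem dg_psd (v : Fin 4 → ℕ) : (dg v).PosSemidef := by
  unfold dg
  rw [Matrix.posSemidef_diagonal_iff]
  intro i
  exact_mod_cast Nat.zero_le _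

/-- words in two diagonal matrices -/
theorem word (u v : Fin 4 → ℕ) (s : List Bool) :
    (s.map (fun b => cond b (dg v) (dg u))).prod =
      dg (fun i => u i ^ (s.count false) * v i ^ (s.count true)) := by
  induction s with
  | nil => simp [dg]
  | cons b s ih =>
    rw [List.map_cons, List.prod_cons, ih]
    cases b
    · simp only [cond_false, dg, Matrix.diagonal_mul_diagonal]
      congr 1
      funext i
      simp [List.count_cons, pow_succ]
      ring
    · simp only [cond_true, dg, Matrix.diagonal_mul_diagonal]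
      congr 1
      funext i
      simp [List.count_cons, pow_succ]
      ring

theorem tr (v : Fin 4 → ℕ) : (dg v).trace = ((∑ i, v i : ℕ) : ℂ) := by
  unfold dg
  rw [Matrix.trace_diagonal]
  push_cast
  rfl

theorem ineq (k l : ℕ) :
    ∑ i, a0 i ^ k * b1 i ^ l ≤ ∑ i, a0 i ^ k * a1 i ^ l := by
  simp only [Fin.sum_univ_four, a0, a1, b1]
  simp
  rcases Nat.eq_zero_or_pos k with rfl | hk
  · rcases Nat.eq_zero_or_pos l with rfl | hl
    · simp
    · simp [zero_pow (by omega : l ≠ 0)]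
  · rcases Nat.eq_zero_or_pos l with rfl | hl
    · simp [zero_pow (by omega : k ≠ 0)]
    · have h1 : 2 ≤ 2 ^ k := by
        calc 2 = 2 ^ 1 := by norm_num
          _ ≤ 2 ^ k := Nat.pow_le_pow_right (by norm_num) hk
      have h2 : 2 ≤ 2 ^ l := by
        calc 2 = 2 ^ 1 := by norm_num
          _ ≤ 2 ^ l := Nat.pow_le_pow_right (by norm_num) hl
      simp [zero_pow (by omega : k ≠ 0), zero_pow (by omega : l ≠ 0)]
      nlinarith

theorem main :
    ¬ (∀ (n : ℕ) (A₀ A₁ B₀ B₁ : Matrix (Fin n) (Fin n) ℂ)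
      (hA₀ : A₀.PosSemidef) (hA₁ : A₁.PosSemidef)
      (hB₀ : B₀.PosSemidef) (hB₁ : B₁.PosSemidef),
      A₀.charpoly = B₀.charpoly →
      A₁.charpoly = B₁.charpoly →
      (∀ s : List Bool,
        ((‖((s.map (fun b => cond b B₁ B₀)).prod).trace‖ : ℝ) : ℂ) ≤
          ((s.map (fun b => cond b A₁ A₀)).prod).trace) →
      ∀ p : ℝ, 1 ≤ p →
        ∑ i, ((hB₀.add hB₁).isHermitian.eigenvalues i) ^ p ≤
          ∑ i, ((hA₀.add hA₁).isHermitian.eigenvalues i) ^ p) := by
  intro H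
  have h := H 4 (dg a0) (dg a1) (dg a0) (dg b1) (dg_psd _) (dg_psd _) (dg_psd _) (dg_psd _) rfl
    (by
      unfold dg
      rw [Matrix.charpoly_diagonal, Matrix.charpoly_diagonal]
      simp [Fin.prod_univ_four, a1, b1]
      ring)
    (by
      intro s
      rw [word, word, tr, tr]
      have := ineq (s.count false) (s.count true)
      simp only [Complex.norm_natCast]
      exact_mod_cast this)
    (3 / 2) (by norm_num)
  have e1 := sum_eig (fun i => ((a0 i + b1 i : ℕ) : ℝ)) (dg a0 + dg b1)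
    ((dg_psd a0).add (dg_psd b1)).isHermitian (by
      unfold dg; rw [Matrix.diagonal_add]; congr 1; funext i; push_cast; rfl) (fun x => x ^ (3 / 2 : ℝ))
  have e2 := sum_eig (fun i => ((a0 i + a1 i : ℕ) : ℝ)) (dg a0 + dg a1)
    ((dg_psd a0).add (dg_psd a1)).isHermitian (by
      unfold dg; rw [Matrix.diagonal_add]; congr 1; funext i; push_cast; rfl) (fun x => x ^ (3 / 2 : ℝ))
  beta_reduce at e1 e2
  rw [e1, e2] at h
  rw [Fin.sum_univ_four, Fin.sum_univ_four] at h
  have q0 : a0 0 + b1 0 = 0 := rfl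
  have q1 : a0 1 + b1 1 = 2 := rfl
  have q2 : a0 2 + b1 2 = 3 := rfl
  have q3 : a0 3 + b1 3 = 3 := rfl
  have r0 : a0 0 + a1 0 = 1 := rfl
  have r1 : a0 1 + a1 1 = 1 := rfl
  have r2 : a0 2 + a1 2 = 2 := rfl
  have r3 : a0 3 + a1 3 = 4 := rfl
  rw [q0, q1, q2, q3, r0, r1, r2, r3] at h
  have z0 : ((0 : ℕ) : ℝ) ^ (3 / 2 : ℝ) = 0 := by
    rw [Nat.cast_zero, Real.zero_rpow (by norm_num)]
  have z1 : ((1 : ℕ) : ℝ) ^ (3 / 2 : ℝ) = 1 := by
    rw [Nat.cast_one, Real.one_rpow]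
  have z4 : ((4 : ℕ) : ℝ) ^ (3 / 2 : ℝ) = 8 := by
    have h4 : ((4 : ℕ) : ℝ) = (2 : ℝ) ^ (2 : ℝ) := by norm_num
    rw [h4, ← Real.rpow_mul (by norm_num)]
    have h5 : (2 : ℝ) * (3 / 2) = ((3 : ℕ) : ℝ) := by norm_num
    rw [h5, Real.rpow_natCast]
    norm_num
  have z3 : (5 : ℝ) < ((3 : ℕ) : ℝ) ^ (3 / 2 : ℝ) := by
    have h6 : (((3 : ℕ) : ℝ) ^ (3 / 2 : ℝ)) ^ 2 = 27 := by
      rw [← Real.rpow_natCast, ← Real.rpow_mul (by positivity)]
      have h5 : (3 / 2 : ℝ) * ((2 : ℕ) : ℝ) = ((3 : ℕ) : ℝ) := by norm_num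
      rw [h5, Real.rpow_natCast]
      norm_num
    have h7 : (0 : ℝ) ≤ ((3 : ℕ) : ℝ) ^ (3 / 2 : ℝ) := by positivity
    nlinarith
  rw [z0, z1, z4] at h
  linarith

end Pool.Agent.DWRD
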